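import Mathlib
import Pool.Agent.W667.DT.Stms

set_option autoImplicit false
set_option maxSynthPendingDepth 3
set_option linter.unusedSectionVars false
set_option linter.unusedVariables false

/-!
Project DT: projectivity of the block diagonal parts (S_PROJ).
-/

namespace Pool.W335.DTproj

open Pool.Agent.W667.DT Pool.Agent.Helper832.GD Pool.Agent.Helper832.GD.Bim
open ContinuousLinearMap Topology Filter

noncomputable section

/-- averaging over signs -/
theorem arr {ι Z : Type} [DecidableEq ι] [NormedAddCommGroup Z] [NormedSpace ℂ Z] (G : Finset ι)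
    (C : ℝ) (X : ι → ι → Z) : ∀ z : Z,
    (∀ ε : ι → ℂ, (∀ i, ‖ε i‖ ≤ 1) →
      ‖z + ∑ i ∈ G, ∑ i' ∈ G, (ε i * ε i') • X i i'‖ ≤ C) →
    ‖z + ∑ i ∈ G, X i i‖ ≤ C := by
  induction G using Finset.induction_on with
  | empty =>
    intro z h
    simpa using h 1 (by simp)
  | insert k G hk ih =>
    intro z h
    rw [Finset.sum_insert hk, ← add_assoc]
    apply ih (z + X k k)
    intro ε hε
    have key : ∀ x : ℂ, x * x = 1 → ‖x‖ ≤ 1 →
        ∑ i ∈ insert k G, ∑ i' ∈ insert k G,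
          (Function.update ε k x i * Function.update ε k x i') • X i i' =
        X k k + x • (∑ i ∈ G, ε i • (X k i + X i k)) +
          ∑ i ∈ G, ∑ i' ∈ G, (ε i * ε i') • X i i' := by
      intro x hx _
      have h1 : ∀ i ∈ G, Function.update ε k x i = ε i := by
        intro i hi
        rw [Function.update_of_ne]
        rintro rfl
        exact hk hi
      rw [Finset.sum_insert hk, Finset.sum_insert hk, Function.update_self, hx, one_smul]
      have h2 : ∑ i' ∈ G, (x * Function.update ε k x i') • X k i' =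
          ∑ i' ∈ G, (x * ε i') • X k i' :=
        Finset.sum_congr rfl fun i hi => by rw [h1 i hi]
      have h3 : ∑ i ∈ G, ∑ i' ∈ insert k G,
          (Function.update ε k x i * Function.update ε k x i') • X i i' =
          ∑ i ∈ G, ((ε i * x) • X i k + ∑ i' ∈ G, (ε i * ε i') • X i i') := by
        refine Finset.sum_congr rfl fun i hi => ?_
        rw [Finset.sum_insert hk, h1 i hi, Function.update_self]
        congr 1
        exact Finset.sum_congr rfl fun i' hi' => by rw [h1 i' hi']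
      rw [h2, h3, Finset.sum_add_distrib, Finset.smul_sum]
      have h4 : ∑ i ∈ G, x • ε i • (X k i + X i k) =
          ∑ i ∈ G, (x * ε i) • X k i + ∑ i ∈ G, (ε i * x) • X i k := by
        rw [← Finset.sum_add_distrib]
        refine Finset.sum_congr rfl fun i _ => ?_
        rw [smul_smul, smul_add, mul_comm (ε i) x]
      rw [h4]
      abel
    have hup : ∀ x : ℂ, ‖x‖ ≤ 1 → ∀ i, ‖Function.update ε k x i‖ ≤ 1 := by
      intro x hx i
      by_cases hi : i = k
      · subst hi; simpa using hx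
      · rw [Function.update_of_ne hi]; exact hε i
    have hp := h (Function.update ε k 1) (hup 1 (by simp))
    have hm := h (Function.update ε k (-1)) (hup (-1) (by simp))
    rw [key 1 (by norm_num) (by simp)] at hp
    rw [key (-1) (by norm_num) (by simp)] at hm
    set S := ∑ i ∈ G, ε i • (X k i + X i k)
    set T := ∑ i ∈ G, ∑ i' ∈ G, (ε i * ε i') • X i i'
    have e : z + X k k + T = (1 / 2 : ℂ) • ((z + (X k k + (1 : ℂ) • S + T)) +
        (z + (X k k + (-1 : ℂ) • S + T))) := by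
      rw [one_smul, neg_smul, one_smul]
      module
    rw [e, norm_smul]
    have h5 := norm_add_le (z + (X k k + (1 : ℂ) • S + T)) (z + (X k k + (-1 : ℂ) • S + T))
    have h6 : ‖(1 / 2 : ℂ)‖ = 1 / 2 := by norm_num
    rw [h6]
    linarith

theorem arr0 {ι Z : Type} [DecidableEq ι] [NormedAddCommGroup Z] [NormedSpace ℂ Z]
    (G : Finset ι) (C : ℝ) (X : ι → ι → Z)
    (h : ∀ ε : ι → ℂ, (∀ i, ‖ε i‖ ≤ 1) → ‖∑ i ∈ G, ∑ i' ∈ G, (ε i * ε i') • X i i'‖ ≤ C) :
    ‖∑ i ∈ G, X i i‖ ≤ C := by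
  have := arr G C X 0 (fun ε hε => by rw [zero_add]; exact h ε hε)
  rwa [zero_add] at this

theorem norm_tens_le {P Q : Type} [NormedAddCommGroup P] [NormedSpace ℂ P]
    [NormedAddCommGroup Q] [NormedSpace ℂ Q] (p : P) (q : Q) :
    ‖(tens p q : Tens P Q)‖ ≤ ‖p‖ * ‖q‖ := by
  refine ContinuousLinearMap.opNorm_le_bound _ (by positivity) (fun β => ?_)
  have := β.le_opNorm₂ p q
  calc ‖β p q‖ ≤ ‖β‖ * ‖p‖ * ‖q‖ := this
    _ = ‖p‖ * ‖q‖ * ‖β‖ := by ring

theorem alg0 {I J S T : Type} [AddCommGroup T] [Module ℂ T] [DecidableEq S] (G : Finset I)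
    (H : Finset J) (l : I → S) (l' : J → S) (L : Finset S) (hL : ∀ i ∈ G, l i ∈ L)
    (x : I → J → T) :
    ∑ s ∈ L, (∑ i ∈ G, ∑ j ∈ H, if l i = s ∧ l' j = s then x i j else 0) =
      ∑ i ∈ G, ∑ j ∈ H, if l i = l' j then x i j else 0 := by
  rw [Finset.sum_comm]
  refine Finset.sum_congr rfl fun i hi => ?_
  rw [Finset.sum_comm]
  refine Finset.sum_congr rfl fun j hj => ?_
  rw [Finset.sum_eq_single (l i)]
  · by_cases h : l i = l' j
    · rw [if_pos h, if_pos ⟨rfl, h.symm⟩]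
    · rw [if_neg h, if_neg (fun h' => h h'.2.symm)]
  · intro s _ hs
    rw [if_neg (fun h' => hs h'.1.symm)]
  · intro h
    exact absurd (hL i hi) h

theorem alg1 {I J S T : Type} [AddCommGroup T] [Module ℂ T] [DecidableEq S] (G : Finset I)
    (H : Finset J) (l : I → S) (l' : J → S) (L : Finset S) (hL : ∀ i ∈ G, l i ∈ L)
    (hL' : ∀ j ∈ H, l' j ∈ L) (x : I → J → T) (ε : S → ℂ) :
    ∑ s ∈ L, ∑ s' ∈ L, (ε s * ε s') •
      (∑ i ∈ G, ∑ j ∈ H, if l i = s ∧ l' j = s' then x i j else 0) =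
      ∑ i ∈ G, ∑ j ∈ H, (ε (l i) * ε (l' j)) • x i j := by
  have h4 : ∀ s ∈ L, ∑ s' ∈ L, (ε s * ε s') •
      (∑ i ∈ G, ∑ j ∈ H, if l i = s ∧ l' j = s' then x i j else 0) =
      ∑ i ∈ G, ∑ j ∈ H, if l i = s then (ε s * ε (l' j)) • x i j else 0 := by
    intro s hs
    simp only [Finset.smul_sum]
    rw [Finset.sum_comm]
    refine Finset.sum_congr rfl fun i hi => ?_
    rw [Finset.sum_comm]
    refine Finset.sum_congr rfl fun j hj => ?_
    rw [Finset.sum_eq_single (l' j)]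
    · by_cases h : l i = s
      · rw [if_pos ⟨h, rfl⟩, if_pos h]
      · rw [if_neg (fun h' => h h'.1), if_neg h, smul_zero]
    · intro s' _ hs'
      rw [if_neg (fun h' => hs' h'.2.symm), smul_zero]
    · intro h
      exact absurd (hL' j hj) h
  rw [Finset.sum_congr rfl h4, Finset.sum_comm]
  refine Finset.sum_congr rfl fun i hi => ?_
  rw [Finset.sum_comm]
  refine Finset.sum_congr rfl fun j hj => ?_
  rw [Finset.sum_eq_single (l i)]
  · rw [if_pos rfl]
  · intro s _ hs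
    rw [if_neg (fun h' => hs h'.symm)]
  · intro h
    exact absurd (hL i hi) h

theorem quad {I J Z : Type} [AddCommGroup Z] [Module ℂ Z] (G : Finset I) (H : Finset J)
    (ε : I → ℂ) (ε' : J → ℂ) (X : I → J → I → J → Z) :
    ∑ j ∈ H, ∑ j' ∈ H, (ε' j * ε' j') • (∑ i ∈ G, ∑ i' ∈ G, (ε i * ε i') • X i j i' j') =
      ∑ i ∈ G, ε i • ∑ j ∈ H, ε' j • ∑ i' ∈ G, ∑ j' ∈ H, (ε i' * ε' j') • X i j i' j' := by
  simp only [Finset.smul_sum, smul_smul]
  have c1 : ∀ j ∈ H, ∑ j' ∈ H, ∑ i ∈ G, ∑ i' ∈ G, (ε' j * ε' j' * (ε i * ε i')) • X i j i' j' =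
      ∑ i ∈ G, ∑ i' ∈ G, ∑ j' ∈ H, (ε' j * ε' j' * (ε i * ε i')) • X i j i' j' := by
    intro j _
    rw [Finset.sum_comm]
    refine Finset.sum_congr rfl fun i _ => ?_
    rw [Finset.sum_comm]
  rw [Finset.sum_congr rfl c1, Finset.sum_comm]
  refine Finset.sum_congr rfl fun i _ => ?_
  refine Finset.sum_congr rfl fun j _ => ?_
  refine Finset.sum_congr rfl fun i' _ => ?_
  refine Finset.sum_congr rfl fun j' _ => ?_
  congr 1
  ring

theorem bil_sum {P Q R I J : Type} [NormedAddCommGroup P] [NormedSpace ℂ P]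
    [NormedAddCommGroup Q] [NormedSpace ℂ Q] [NormedAddCommGroup R] [NormedSpace ℂ R]
    (β : P →L[ℂ] Q →L[ℂ] R) (G : Finset I) (H : Finset J) (a : I → ℂ) (b : J → ℂ)
    (p : I → P) (q : J → Q) :
    β (∑ i ∈ G, a i • p i) (∑ j ∈ H, b j • q j) =
      ∑ i ∈ G, ∑ j ∈ H, (a i * b j) • β (p i) (q j) := by
  have h1 : β (∑ i ∈ G, a i • p i) = ∑ i ∈ G, a i • β (p i) := by
    simp only [map_sum, map_smul]
  rw [h1, sum_apply]
  refine Finset.sum_congr rfl fun i _ => ?_
  rw [map_sum]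
  refine Finset.sum_congr rfl fun j _ => ?_
  rw [map_smul, smul_apply, smul_smul, mul_comm]

theorem tens_sum {P Q I J : Type} [NormedAddCommGroup P] [NormedSpace ℂ P]
    [NormedAddCommGroup Q] [NormedSpace ℂ Q] (G : Finset I) (H : Finset J) (a : I → ℂ)
    (b : J → ℂ) (p : I → P) (q : J → Q) :
    (tens (∑ i ∈ G, a i • p i) (∑ j ∈ H, b j • q j) : Tens P Q) =
      ∑ i ∈ G, ∑ j ∈ H, (a i * b j) • (tens (p i) (q j) : Tens P Q) :=
  bil_sum tens G H a b p q

section Blocks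

variable {Ω : Type} [TopologicalSpace Ω] [CompactSpace Ω] [T2Space Ω] {S : Type}

theorem ind_ptw (B : Blk Ω S) (G : Finset B.I) (c : B.I → ℂ) (hc : ∀ i, ‖c i‖ ≤ 1) (w : Ω) :
    ‖∑ i ∈ G, c i * ind (B.V i) w‖ ≤ 1 := by
  classical
  by_cases h : ∃ i ∈ G, w ∈ B.V i
  · obtain ⟨i, hi, hw⟩ := h
    rw [Finset.sum_eq_single i]
    · rw [ind_apply (B.clopen i), Set.indicator_of_mem hw]
      simpa using hc i
    · intro j _ hj
      have : w ∉ B.V j := fun hwj => Set.disjoint_left.1 (B.disj hj) hwj hw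
      rw [ind_apply (B.clopen j), Set.indicator_of_notMem this, mul_zero]
    · intro h; exact absurd hi h
  · push Not at h
    rw [Finset.sum_eq_zero]
    · simp
    · intro i hi
      rw [ind_apply (B.clopen i), Set.indicator_of_notMem (h i hi), mul_zero]

theorem sum_ind_le (B : Blk Ω S) (G : Finset B.I) (c : B.I → ℂ) (hc : ∀ i, ‖c i‖ ≤ 1)
    (m : C(Ω, ℂ)) : ‖∑ i ∈ G, c i • (m * ind (B.V i))‖ ≤ ‖m‖ := by
  refine (ContinuousMap.norm_le _ (norm_nonneg _)).2 fun w => ?_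
  have h1 : (∑ i ∈ G, c i • (m * ind (B.V i))) w = m w * ∑ i ∈ G, c i * ind (B.V i) w := by
    rw [ContinuousMap.sum_apply, Finset.mul_sum]
    refine Finset.sum_congr rfl fun i _ => ?_
    simp only [ContinuousMap.smul_apply, ContinuousMap.mul_apply, smul_eq_mul]
    ring
  rw [h1, norm_mul]
  calc ‖m w‖ * ‖∑ i ∈ G, c i * ind (B.V i) w‖ ≤ ‖m‖ * 1 :=
        mul_le_mul (m.norm_coe_le_norm w) (ind_ptw B G c hc w) (norm_nonneg _) (norm_nonneg _)
    _ = ‖m‖ := mul_one _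

/-- the indicator function of a block as an element of `C0 U` -/
def sg (B : Blk Ω S) (i : B.I) : C0 B.U :=
  ⟨ind (B.V i), fun w hw => by
    rw [ind_apply (B.clopen i), Set.indicator_of_notMem]
    exact fun h => hw (Set.mem_iUnion.2 ⟨i, h⟩)⟩

theorem sum_sg_le (B : Blk Ω S) (G : Finset B.I) (c : B.I → ℂ) (hc : ∀ i, ‖c i‖ ≤ 1) :
    ‖∑ i ∈ G, c i • sg B i‖ ≤ 1 := by
  have h1 : ‖∑ i ∈ G, c i • sg B i‖ = ‖((∑ i ∈ G, c i • sg B i : C0 B.U) : C(Ω, ℂ))‖ := rfl
  rw [h1]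
  refine (ContinuousMap.norm_le _ zero_le_one).2 fun w => ?_
  have h2 : ((∑ i ∈ G, c i • sg B i : C0 B.U) : C(Ω, ℂ)) w = ∑ i ∈ G, c i * ind (B.V i) w := by
    rw [Submodule.coe_sum, ContinuousMap.sum_apply]
    rfl
  rw [h2]
  exact ind_ptw B G c hc w

open Classical in
/-- the generators as elements of the module -/
def gg (B B' : Blk Ω S) (i : B.I) (j : B'.I) : PSub B B' :=
  if h : B.l i = B'.l j then
    ⟨tens (sg B i) (sg B' j), Submodule.le_topologicalClosure _ (Submodule.subset_span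
      ⟨i, j, sg B i, sg B' j, h,
        fun w hw => by
          show ind (B.V i) w = 0
          rw [ind_apply (B.clopen i), Set.indicator_of_notMem hw],
        fun w hw => by
          show ind (B'.V j) w = 0
          rw [ind_apply (B'.clopen j), Set.indicator_of_notMem hw], rfl⟩)⟩
  else 0

open Classical in
theorem gg_val (B B' : Blk Ω S) (i : B.I) (j : B'.I) :
    (gg B B' i j : Tens (C0 B.U) (C0 B'.U)) =
      if B.l i = B'.l j then tens (sg B i) (sg B' j) else 0 := by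
  unfold gg
  split_ifs <;> rfl

theorem D_bound (B B' : Blk Ω S) (G : Finset B.I) (H : Finset B'.I) (c : B.I → ℂ)
    (c' : B'.I → ℂ) (hc : ∀ i, ‖c i‖ ≤ 1) (hc' : ∀ i, ‖c' i‖ ≤ 1) :
    ‖∑ i ∈ G, ∑ j ∈ H, (c i * c' j) • gg B B' i j‖ ≤ 1 := by
  classical
  have h1 : ‖∑ i ∈ G, ∑ j ∈ H, (c i * c' j) • gg B B' i j‖ =
      ‖((∑ i ∈ G, ∑ j ∈ H, (c i * c' j) • gg B B' i j : PSub B B') :
        Tens (C0 B.U) (C0 B'.U))‖ := rfl
  rw [h1]
  let L : Finset S := G.image B.l ∪ H.image B'.l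
  have hL : ∀ i ∈ G, B.l i ∈ L := fun i hi =>
    Finset.mem_union_left _ (Finset.mem_image_of_mem _ hi)
  have hL' : ∀ j ∈ H, B'.l j ∈ L := fun j hj =>
    Finset.mem_union_right _ (Finset.mem_image_of_mem _ hj)
  let x : B.I → B'.I → Tens (C0 B.U) (C0 B'.U) := fun i j =>
    (c i * c' j) • (tens (sg B i) (sg B' j) : Tens (C0 B.U) (C0 B'.U))
  have h2 : ((∑ i ∈ G, ∑ j ∈ H, (c i * c' j) • gg B B' i j : PSub B B') :
        Tens (C0 B.U) (C0 B'.U)) =
      ∑ s ∈ L, (∑ i ∈ G, ∑ j ∈ H, if B.l i = s ∧ B'.l j = s then x i j else 0) := by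
    rw [alg0 G H B.l B'.l L hL x, Submodule.coe_sum]
    refine Finset.sum_congr rfl fun i hi => ?_
    rw [Submodule.coe_sum]
    refine Finset.sum_congr rfl fun j hj => ?_
    rw [Submodule.coe_smul, gg_val]
    split_ifs
    · rfl
    · rw [smul_zero]
  rw [h2]
  refine arr0 L 1 (fun s s' => ∑ i ∈ G, ∑ j ∈ H, if B.l i = s ∧ B'.l j = s' then x i j else 0) ?_
  intro ε hε
  rw [alg1 G H B.l B'.l L hL hL' x ε]
  have h3 : ∑ i ∈ G, ∑ j ∈ H, (ε (B.l i) * ε (B'.l j)) • x i j =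
      tens (∑ i ∈ G, (ε (B.l i) * c i) • sg B i) (∑ j ∈ H, (ε (B'.l j) * c' j) • sg B' j) := by
    rw [tens_sum]
    refine Finset.sum_congr rfl fun i hi => ?_
    refine Finset.sum_congr rfl fun j hj => ?_
    simp only [x]
    rw [smul_smul]
    congr 1
    ring
  rw [h3]
  refine (norm_tens_le _ _).trans ?_
  have hcc : ∀ i, ‖ε (B.l i) * c i‖ ≤ 1 := fun i => by
    rw [norm_mul]
    exact mul_le_one₀ (hε _) (norm_nonneg _) (hc i)
  have hcc' : ∀ i, ‖ε (B'.l i) * c' i‖ ≤ 1 := fun i => by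
    rw [norm_mul]
    exact mul_le_one₀ (hε _) (norm_nonneg _) (hc' i)
  exact mul_le_one₀ (sum_sg_le B G _ hcc) (norm_nonneg _) (sum_sg_le B' H _ hcc')

end Blocks

section Psi

variable {Ω : Type} [TopologicalSpace Ω] [CompactSpace Ω] [T2Space Ω] {S : Type}
  (B B' : Blk Ω S) (Y : Bim C(Ω, ℂ) C(Ω, ℂ)) (τ : PSub B B' →L[ℂ] Y.carrier)

/-- the finite partial sums of the lifting -/
def ps (G : Finset B.I) (H : Finset B'.I) (m : C(Ω, ℂ)) (n : C(Ω, ℂ)) : Y.carrier :=
  ∑ i ∈ G, ∑ j ∈ H, Y.left (m * ind (B.V i)) (Y.right (n * ind (B'.V j)) (τ (gg B B' i j)))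

theorem ps_bound (G : Finset B.I) (H : Finset B'.I) (m n : C(Ω, ℂ)) :
    ‖ps B B' Y τ G H m n‖ ≤ ‖Y.left‖ * ‖Y.right‖ * ‖τ‖ * ‖m‖ * ‖n‖ := by
  classical
  unfold ps
  refine arr0 G _ (fun i i' => ∑ j ∈ H,
    Y.left (m * ind (B.V i)) (Y.right (n * ind (B'.V j)) (τ (gg B B' i' j)))) ?_
  intro ε hε
  have h1 : ∑ i ∈ G, ∑ i' ∈ G, (ε i * ε i') • (∑ j ∈ H,
      Y.left (m * ind (B.V i)) (Y.right (n * ind (B'.V j)) (τ (gg B B' i' j)))) =
      ∑ j ∈ H, ∑ i ∈ G, ∑ i' ∈ G, (ε i * ε i') •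
        Y.left (m * ind (B.V i)) (Y.right (n * ind (B'.V j)) (τ (gg B B' i' j))) := by
    simp only [Finset.smul_sum]
    rw [Finset.sum_comm]
    have : ∀ i' ∈ G, ∑ i ∈ G, ∑ j ∈ H, (ε i * ε i') •
        Y.left (m * ind (B.V i)) (Y.right (n * ind (B'.V j)) (τ (gg B B' i' j))) =
        ∑ j ∈ H, ∑ i ∈ G, (ε i * ε i') •
        Y.left (m * ind (B.V i)) (Y.right (n * ind (B'.V j)) (τ (gg B B' i' j))) :=
      fun i' _ => Finset.sum_comm
    rw [Finset.sum_congr rfl this, Finset.sum_comm]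
    refine Finset.sum_congr rfl fun j _ => ?_
    rw [Finset.sum_comm]
  rw [h1]
  refine arr0 H _ (fun j j' => ∑ i ∈ G, ∑ i' ∈ G, (ε i * ε i') •
        Y.left (m * ind (B.V i)) (Y.right (n * ind (B'.V j)) (τ (gg B B' i' j')))) ?_
  intro ε' hε'
  have h2 : ∑ j ∈ H, ∑ j' ∈ H, (ε' j * ε' j') • (∑ i ∈ G, ∑ i' ∈ G, (ε i * ε i') •
        Y.left (m * ind (B.V i)) (Y.right (n * ind (B'.V j)) (τ (gg B B' i' j')))) =
      Y.left (∑ i ∈ G, ε i • (m * ind (B.V i))) (Y.right (∑ j ∈ H, ε' j • (n * ind (B'.V j)))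
        (τ (∑ i' ∈ G, ∑ j' ∈ H, (ε i' * ε' j') • gg B B' i' j'))) := by
    have e1 : ∀ y, Y.left (∑ i ∈ G, ε i • (m * ind (B.V i))) y =
        ∑ i ∈ G, ε i • Y.left (m * ind (B.V i)) y := by
      intro y
      have : Y.left (∑ i ∈ G, ε i • (m * ind (B.V i))) =
          ∑ i ∈ G, ε i • Y.left (m * ind (B.V i)) := by simp only [map_sum, map_smul]
      rw [this, sum_apply]
      rfl
    have e2 : ∀ y, Y.right (∑ j ∈ H, ε' j • (n * ind (B'.V j))) y =
        ∑ j ∈ H, ε' j • Y.right (n * ind (B'.V j)) y := by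
      intro y
      have : Y.right (∑ j ∈ H, ε' j • (n * ind (B'.V j))) =
          ∑ j ∈ H, ε' j • Y.right (n * ind (B'.V j)) := by simp only [map_sum, map_smul]
      rw [this, sum_apply]
      rfl
    have e3 : τ (∑ i' ∈ G, ∑ j' ∈ H, (ε i' * ε' j') • gg B B' i' j') =
        ∑ i' ∈ G, ∑ j' ∈ H, (ε i' * ε' j') • τ (gg B B' i' j') := by
      simp only [map_sum, map_smul]
    rw [quad G H ε ε' (fun i j i' j' =>
      Y.left (m * ind (B.V i)) (Y.right (n * ind (B'.V j)) (τ (gg B B' i' j')))), e1]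
    refine Finset.sum_congr rfl fun i _ => ?_
    congr 1
    rw [e2, map_sum]
    refine Finset.sum_congr rfl fun j _ => ?_
    rw [map_smul]
    congr 1
    rw [e3]
    simp only [map_sum, map_smul]
  rw [h2]
  have b1 := Y.left.le_opNorm₂ (∑ i ∈ G, ε i • (m * ind (B.V i)))
    (Y.right (∑ j ∈ H, ε' j • (n * ind (B'.V j)))
        (τ (∑ i' ∈ G, ∑ j' ∈ H, (ε i' * ε' j') • gg B B' i' j')))
  have b2 := Y.right.le_opNorm₂ (∑ j ∈ H, ε' j • (n * ind (B'.V j)))
        (τ (∑ i' ∈ G, ∑ j' ∈ H, (ε i' * ε' j') • gg B B' i' j'))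
  have b3 := τ.le_opNorm (∑ i' ∈ G, ∑ j' ∈ H, (ε i' * ε' j') • gg B B' i' j')
  have b4 := D_bound B B' G H ε ε' hε hε'
  have b5 := sum_ind_le B G ε hε m
  have b6 := sum_ind_le B' H ε' hε' n
  have b7 : ‖τ (∑ i' ∈ G, ∑ j' ∈ H, (ε i' * ε' j') • gg B B' i' j')‖ ≤ ‖τ‖ :=
    b3.trans (mul_le_of_le_one_right (norm_nonneg _) b4)
  calc _ ≤ _ := b1
    _ ≤ ‖Y.left‖ * ‖m‖ * (‖Y.right‖ * ‖n‖ * ‖τ‖) := by
        refine mul_le_mul (mul_le_mul_of_nonneg_left b5 (norm_nonneg _)) ?_ (norm_nonneg _)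
          (by positivity)
        refine b2.trans ?_
        exact mul_le_mul (mul_le_mul_of_nonneg_left b6 (norm_nonneg _)) b7 (norm_nonneg _)
          (by positivity)
    _ = _ := by ring

/-- the bilinear maps -/
def Ps (G : Finset B.I) (H : Finset B'.I) : C0 B.U →L[ℂ] C0 B'.U →L[ℂ] Y.carrier :=
  LinearMap.mkContinuous₂
    (LinearMap.mk₂ ℂ (fun (m : C0 B.U) (n : C0 B'.U) => ps B B' Y τ G H m.1 n.1)
      (fun a b y => by
        simp only [ps, Submodule.coe_add, add_mul, map_add, add_apply, Finset.sum_add_distrib])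
      (fun c a y => by
        simp only [ps, Submodule.coe_smul, smul_mul_assoc, map_smul, smul_apply,
          Finset.smul_sum])
      (fun a y z => by
        simp only [ps, Submodule.coe_add, add_mul, map_add, add_apply, Finset.sum_add_distrib])
      (fun c a y => by
        simp only [ps, Submodule.coe_smul, smul_mul_assoc, map_smul, smul_apply,
          Finset.smul_sum]))
    (‖Y.left‖ * ‖Y.right‖ * ‖τ‖) (fun m n => ps_bound B B' Y τ G H m.1 n.1)

theorem Ps_apply (G : Finset B.I) (H : Finset B'.I) (m : C0 B.U) (n : C0 B'.U) :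
    Ps B B' Y τ G H m n = ps B B' Y τ G H m.1 n.1 := rfl

theorem Ps_norm (G : Finset B.I) (H : Finset B'.I) :
    ‖Ps B B' Y τ G H‖ ≤ ‖Y.left‖ * ‖Y.right‖ * ‖τ‖ :=
  LinearMap.mkContinuous₂_norm_le _ (by positivity) _

/-- the operators -/
def PL (GH : Finset B.I × Finset B'.I) : Tens (C0 B.U) (C0 B'.U) →L[ℂ] Y.carrier :=
  lift (Ps B B' Y τ GH.1 GH.2)

theorem PL_norm (GH : Finset B.I × Finset B'.I) (t : Tens (C0 B.U) (C0 B'.U)) :
    ‖PL B B' Y τ GH t‖ ≤ ‖Y.left‖ * ‖Y.right‖ * ‖τ‖ * ‖t‖ := by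
  have h1 : ‖PL B B' Y τ GH t‖ ≤ 1 * ‖Ps B B' Y τ GH.1 GH.2‖ * ‖t‖ :=
    norm_lift0_le (Ps B B' Y τ GH.1 GH.2) t
  rw [one_mul] at h1
  exact h1.trans (mul_le_mul_of_nonneg_right (Ps_norm B B' Y τ _ _) (norm_nonneg _))

theorem PL_tens (GH : Finset B.I × Finset B'.I) (m : C0 B.U) (n : C0 B'.U) :
    PL B B' Y τ GH (tens m n) = ps B B' Y τ GH.1 GH.2 m.1 n.1 := lift_tens _ _ _

theorem PL_left (GH : Finset B.I × Finset B'.I) (a : C(Ω, ℂ)) (t : Tens (C0 B.U) (C0 B'.U)) :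
    PL B B' Y τ GH (tLeft B.U B'.U a t) = Y.left a (PL B B' Y τ GH t) := by
  have : (PL B B' Y τ GH).comp (tLeft B.U B'.U a) = (Y.left a).comp (PL B B' Y τ GH) :=
    tens_ext fun m n => by
      rw [comp_apply, comp_apply, tLeft_tens, PL_tens, PL_tens]
      unfold ps
      simp only [map_sum]
      refine Finset.sum_congr rfl fun i _ => ?_
      refine Finset.sum_congr rfl fun j _ => ?_
      rw [← Y.left_mul]
      congr 2
      ext w
      simp [mul_assoc]
  exact congrArg (fun f : Tens (C0 B.U) (C0 B'.U) →L[ℂ] Y.carrier => f t) this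

theorem PL_right (GH : Finset B.I × Finset B'.I) (a : C(Ω, ℂ)) (t : Tens (C0 B.U) (C0 B'.U)) :
    PL B B' Y τ GH (tRight B.U B'.U a t) = Y.right a (PL B B' Y τ GH t) := by
  have : (PL B B' Y τ GH).comp (tRight B.U B'.U a) = (Y.right a).comp (PL B B' Y τ GH) :=
    tens_ext fun m n => by
      rw [comp_apply, comp_apply, Pool.Agent.W667.DT.tRight_tens, PL_tens, PL_tens]
      unfold ps
      simp only [map_sum]
      refine Finset.sum_congr rfl fun i _ => ?_
      refine Finset.sum_congr rfl fun j _ => ?_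
      rw [← Y.left_right, ← Y.right_mul]
      congr 3
      ext w
      simp only [mulC_apply, ContinuousMap.mul_apply]
      ring
  exact congrArg (fun f : Tens (C0 B.U) (C0 B'.U) →L[ℂ] Y.carrier => f t) this

/-- the value on a generator -/
theorem ps_gen {G : Finset B.I} {H : Finset B'.I} {i : B.I} {j : B'.I} (hi : i ∈ G) (hj : j ∈ H)
    (m n : C(Ω, ℂ)) (hm : ∀ w ∉ B.V i, m w = 0) (hn : ∀ w ∉ B'.V j, n w = 0) :
    ps B B' Y τ G H m n = Y.left m (Y.right n (τ (gg B B' i j))) := by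
  classical
  unfold ps
  have h1 : ∀ (B : Blk Ω S) (i : B.I) (m : C(Ω, ℂ)), (∀ w ∉ B.V i, m w = 0) →
      m * ind (B.V i) = m := by
    intro B i m hm
    ext w
    rw [ContinuousMap.mul_apply, ind_apply (B.clopen i)]
    by_cases hw : w ∈ B.V i
    · rw [Set.indicator_of_mem hw]; simp
    · rw [hm w hw, zero_mul]
  have h2 : ∀ (B : Blk Ω S) (i i' : B.I) (m : C(Ω, ℂ)), i' ≠ i → (∀ w ∉ B.V i, m w = 0) →
      m * ind (B.V i') = 0 := by
    intro B i i' m hne hm
    ext w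
    rw [ContinuousMap.mul_apply, ind_apply (B.clopen i')]
    by_cases hw : w ∈ B.V i
    · have : w ∉ B.V i' := fun h => Set.disjoint_left.1 (B.disj hne) h hw
      rw [Set.indicator_of_notMem this, mul_zero]; rfl
    · rw [hm w hw, zero_mul]; rfl
  rw [Finset.sum_eq_single i, Finset.sum_eq_single j, h1 B i m hm, h1 B' j n hn]
  · intro j' _ hj'
    rw [h2 B' j j' n hj' hn, map_zero, zero_apply, map_zero]
  · intro h; exact absurd hj h
  · intro i' _ hi'
    rw [h2 B i i' m hi' hm, map_zero]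
    simp
  · intro h; exact absurd hi h

theorem PL_gen {t : Tens (C0 B.U) (C0 B'.U)} (ht : t ∈ PGen B B') :
    ∃ y : Y.carrier, ∀ᶠ GH in (atTop : Filter (Finset B.I × Finset B'.I)),
      PL B B' Y τ GH t = y := by
  obtain ⟨i, j, m, n, hl, hm, hn, rfl⟩ := ht
  refine ⟨Y.left m.1 (Y.right n.1 (τ (gg B B' i j))), ?_⟩
  filter_upwards [eventually_ge_atTop (({i}, {j}) : Finset B.I × Finset B'.I)] with GH hGH
  rw [PL_tens]
  exact ps_gen B B' Y τ (hGH.1 (Finset.mem_singleton_self i)) (hGH.2 (Finset.mem_singleton_self j))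
    m.1 n.1 hm hn

end Psi

section Lim

variable {α E F : Type} [NormedAddCommGroup E] [NormedSpace ℂ E] [NormedAddCommGroup F]
  [NormedSpace ℂ F] [CompleteSpace F]

/-- the set of convergence of a bounded net of operators is closed -/
theorem lim_closed (l : Filter α) [l.NeBot] (T : α → E →L[ℂ] F) (C : ℝ)
    (hC : ∀ a x, ‖T a x‖ ≤ C * ‖x‖) (x : E)
    (hx : x ∈ closure {x : E | ∃ y, Tendsto (fun a => T a x) l (𝓝 y)}) :
    ∃ y, Tendsto (fun a => T a x) l (𝓝 y) := by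
  have hC0 : 0 < max C 0 + 1 := by positivity
  rw [← cauchy_map_iff_exists_tendsto, Metric.cauchy_iff]
  refine ⟨inferInstance, fun ε hε => ?_⟩
  obtain ⟨x', hx', hd⟩ := Metric.mem_closure_iff.1 hx (ε / (3 * (max C 0 + 1))) (by positivity)
  have h1 := (Metric.cauchy_iff.1 (cauchy_map_iff_exists_tendsto.2 hx')).2 (ε / 3) (by positivity)
  obtain ⟨t, ht, htd⟩ := h1
  refine ⟨(fun a => T a x) '' {a | T a x' ∈ t}, image_mem_map ht, ?_⟩
  rintro _ ⟨a, ha, rfl⟩ _ ⟨b, hb, rfl⟩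
  have h2 : ∀ a, dist (T a x) (T a x') < ε / 3 := by
    intro a
    rw [dist_eq_norm, ← map_sub]
    have h3 := hC a (x - x')
    have h4 : C * ‖x - x'‖ ≤ (max C 0 + 1) * ‖x - x'‖ :=
      mul_le_mul_of_nonneg_right (by linarith [le_max_left C 0]) (norm_nonneg _)
    have h5 : (max C 0 + 1) * ‖x - x'‖ < (max C 0 + 1) * (ε / (3 * (max C 0 + 1))) := by
      apply mul_lt_mul_of_pos_left _ hC0
      rw [← dist_eq_norm]
      exact hd
    have h6 : (max C 0 + 1) * (ε / (3 * (max C 0 + 1))) = ε / 3 := by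
      field_simp
    linarith
  have h7 := htd _ ha _ hb
  have h8 := h2 a
  have h9 := h2 b
  rw [dist_comm] at h9
  have h10 := dist_triangle4 (T a x) (T a x') (T b x') (T b x)
  linarith

/-- the limit operator on a closed span -/
theorem lim_op (l : Filter α) [l.NeBot] (T : α → E →L[ℂ] F) (C : ℝ)
    (hC : ∀ a x, ‖T a x‖ ≤ C * ‖x‖) (Gen : Set E)
    (hgen : ∀ x ∈ Gen, ∃ y : F, ∀ᶠ a in l, T a x = y) :
    ∃ ψ : (Submodule.span ℂ Gen).topologicalClosure →L[ℂ] F,
      ∀ x : (Submodule.span ℂ Gen).topologicalClosure,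
        Tendsto (fun a => T a (x : E)) l (𝓝 (ψ x)) := by
  have h1 : ∀ x ∈ (Submodule.span ℂ Gen).topologicalClosure,
      ∃ y, Tendsto (fun a => T a x) l (𝓝 y) := by
    intro x hx
    apply lim_closed l T C hC
    refine closure_mono ?_ hx
    intro x hx
    have hx' : x ∈ Submodule.span ℂ Gen := hx
    induction hx' using Submodule.span_induction with
    | mem y hy =>
      obtain ⟨z, hz⟩ := hgen y hy
      exact ⟨z, tendsto_const_nhds.congr' (hz.mono fun a ha => ha.symm)⟩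
    | zero => exact ⟨0, by simp⟩
    | add y z hy hz h1 h2 =>
      obtain ⟨y1, h3⟩ := h1 hy
      obtain ⟨y2, h4⟩ := h2 hz
      exact ⟨y1 + y2, by simpa using h3.add h4⟩
    | smul c y hy h1 =>
      obtain ⟨y1, h3⟩ := h1 hy
      exact ⟨c • y1, by simpa using h3.const_smul c⟩
  choose! g hg using h1
  refine ⟨LinearMap.mkContinuous
    { toFun := fun x => g x.1
      map_add' := ?_
      map_smul' := ?_ } C ?_, fun x => hg x.1 x.2⟩
  · intro x y
    refine tendsto_nhds_unique (hg (x + y).1 (x + y).2) ?_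
    have := (hg x.1 x.2).add (hg y.1 y.2)
    refine this.congr fun a => ?_
    rw [← map_add]
    rfl
  · intro c x
    refine tendsto_nhds_unique (hg (c • x).1 (c • x).2) ?_
    have := (hg x.1 x.2).const_smul c
    refine this.congr fun a => ?_
    rw [← map_smul]
    rfl
  · intro x
    exact le_of_tendsto (hg x.1 x.2).norm (Eventually.of_forall fun a => hC a x.1)

/-- operators on a closed span are determined by the generators -/
theorem span_ext (Gen : Set E) (f g : (Submodule.span ℂ Gen).topologicalClosure →L[ℂ] F)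
    (h : ∀ x (hx : x ∈ Gen), f ⟨x, Submodule.le_topologicalClosure _ (Submodule.subset_span hx)⟩ =
      g ⟨x, Submodule.le_topologicalClosure _ (Submodule.subset_span hx)⟩) : ∀ x, f x = g x := by
  have hle : (Submodule.span ℂ Gen : Set E) ⊆
      ((Submodule.span ℂ Gen).topologicalClosure : Set E) := Submodule.le_topologicalClosure _
  have hd : DenseRange (Set.inclusion hle) := by
    rw [denseRange_inclusion_iff]
    exact le_of_eq rfl
  have hx : ∀ x (hx : x ∈ Submodule.span ℂ Gen), f ⟨x, hle hx⟩ = g ⟨x, hle hx⟩ := by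
    intro x hx
    induction hx using Submodule.span_induction with
    | mem y hy => exact h y hy
    | zero =>
      have : (⟨0, hle (Submodule.zero_mem _)⟩ :
        (Submodule.span ℂ Gen).topologicalClosure) = 0 := rfl
      rw [this, map_zero, map_zero]
    | add y z hy hz h1 h2 =>
      have : (⟨y + z, hle (Submodule.add_mem _ hy hz)⟩ :
        (Submodule.span ℂ Gen).topologicalClosure) = ⟨y, hle hy⟩ + ⟨z, hle hz⟩ := rfl
      rw [this, map_add, map_add, h1, h2]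
    | smul c y hy h1 =>
      have : (⟨c • y, hle (Submodule.smul_mem _ c hy)⟩ :
        (Submodule.span ℂ Gen).topologicalClosure) = c • ⟨y, hle hy⟩ := rfl
      rw [this, map_smul, map_smul, h1]
  have key : (f : _ → F) = g := by
    refine hd.equalizer f.continuous g.continuous ?_
    funext x
    exact hx x.1 x.2
  exact fun x => congrFun key x

end Lim

/-- PROJ -/
theorem proj : S_PROJ := by
  intro Ω _ _ _ S B B' Y Z σ φ hσ hσ' hφ
  classical
  obtain ⟨s, hs⟩ := hσ'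
  let τ : PSub B B' →L[ℂ] Y.carrier := s.comp φ
  obtain ⟨ψ, hψ⟩ := lim_op (atTop : Filter (Finset B.I × Finset B'.I)) (PL B B' Y τ)
    (‖Y.left‖ * ‖Y.right‖ * ‖τ‖) (PL_norm B B' Y τ) (PGen B B') (fun x hx => PL_gen B B' Y τ hx)
  refine ⟨ψ, ⟨?_, ?_⟩, ?_⟩
  · intro a x
    refine tendsto_nhds_unique (hψ ((PB B B').left a x)) ?_
    have h1 := ((Y.left a).continuous.tendsto _).comp (hψ x)
    refine h1.congr fun GH => ?_
    exact (PL_left B B' Y τ GH a _).symm
  · intro a x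
    refine tendsto_nhds_unique (hψ ((PB B B').right a x)) ?_
    have h1 := ((Y.right a).continuous.tendsto _).comp (hψ x)
    refine h1.congr fun GH => ?_
    exact (PL_right B B' Y τ GH a _).symm
  · refine span_ext (PGen B B') (σ.comp ψ) φ ?_
    rintro _ ⟨i, j, m, n, hl, hm, hn, rfl⟩
    have hmem : (tens m n : Tens (C0 B.U) (C0 B'.U)) ∈ PSub B B' :=
      Submodule.le_topologicalClosure _ (Submodule.subset_span ⟨i, j, m, n, hl, hm, hn, rfl⟩)
    have h1 : ψ ⟨tens m n, hmem⟩ = Y.left m.1 (Y.right n.1 (τ (gg B B' i j))) := by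
      refine tendsto_nhds_unique (hψ ⟨tens m n, hmem⟩) ?_
      refine tendsto_const_nhds.congr' ?_
      filter_upwards [eventually_ge_atTop (({i}, {j}) : Finset B.I × Finset B'.I)] with GH hGH
      show _ = PL B B' Y τ GH (tens m n)
      rw [PL_tens, ps_gen B B' Y τ (hGH.1 (Finset.mem_singleton_self i))
        (hGH.2 (Finset.mem_singleton_self j)) m.1 n.1 hm hn]
    show σ (ψ ⟨tens m n, hmem⟩) = φ ⟨tens m n, hmem⟩
    rw [h1, hσ.1, hσ.2]
    have e2 : σ (τ (gg B B' i j)) = φ (gg B B' i j) := hs _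
    have e3 : Z.right n.1 (φ (gg B B' i j)) = φ ((PB B B').right n.1 (gg B B' i j)) :=
      (hφ.2 _ _).symm
    have e4 : Z.left m.1 (φ ((PB B B').right n.1 (gg B B' i j))) =
        φ ((PB B B').left m.1 ((PB B B').right n.1 (gg B B' i j))) := (hφ.1 _ _).symm
    rw [e2]
    refine (congrArg (Z.left m.1) e3).trans (e4.trans ?_)
    congr 1
    apply Subtype.ext
    show tLeft B.U B'.U m.1 (Pool.Agent.W667.DT.tRight B.U B'.U n.1
      (gg B B' i j : Tens (C0 B.U) (C0 B'.U))) = tens m n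
    rw [gg_val, if_pos hl, Pool.Agent.W667.DT.tRight_tens, tLeft_tens]
    have e1 : ∀ (B : Blk Ω S) (i : B.I) (m : C0 B.U), (∀ w ∉ B.V i, m.1 w = 0) →
        mulC B.U m.1 (sg B i) = m := by
      intro B i m hm
      ext w
      rw [mulC_apply]
      show m.1 w * ind (B.V i) w = m.1 w
      rw [ind_apply (B.clopen i)]
      by_cases hw : w ∈ B.V i
      · rw [Set.indicator_of_mem hw]; simp
      · rw [hm w hw, zero_mul]
    rw [e1 B i m hm, e1 B' j n hn]

end

end Pool.W335.DTproj
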